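import Mathlib
import Pool.Agent.W245.EB.Par

/-!
# The elliptico-toric conjecture in bounded degree, for generic points

Let `Ω = ℤ ω₁ + ℤ ω₂` be a lattice with algebraic invariants `g₂, g₃`, `k = End(ℂ/Ω) ⊗ ℚ`, with
quasi-periods `η₁, η₂`, and let `θ_1, …, θ_q` be arbitrary complex numbers. Let `a_{l1}, …, a_{lR}`
(`l < s`) be `ℚ`-linearly independent logarithms of algebraic numbers, and `u_{i1}, …, u_{iR}`
(`i < n`) elliptic logarithms of algebraic points, linearly independent over `k`.

If `Ω` has complex multiplication and `R ≥ (D + 1)^{5 + q + s + 2n}`, then for all integers outside a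
hypersurface of explicit degree, every polynomial relation of degree at most `D` over the algebraic
numbers between `ω₁, ω₂, η₁, η₂, 2πi, θ_1, …, θ_q` and the `s + 2n` numbers
`t_l = ∑ m_{lj} a_{lj}`, `p_i = ∑ (m_{ij} + m'_{ij} α) u_{ij}`, `ζ(p_i)` is trivial: it is a
consequence of relations between `ω₁, ω₂, η₁, η₂, 2πi, θ_1, …, θ_q`.
For an arbitrary `Ω` the same holds for the `s + n` numbers `t_l`, `σ_i ζ(p_i) + ρ_i p_i`.

The proof contains complete formalizations of the theorems on linear forms in logarithms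
(`Pool.Agent.H297R2.BakerThm`), in elliptic logarithms and in integrals of the second kind which are
used (`Pool.Agent.W245.EB.RedZ`), by the theorem of Schneider and Lang on Cartesian products
(`Pool.Agent.W245.EB.AD2`), and of the action of complex multiplication on `ζ`
(`Pool.Agent.W245.EB.CMz2`).
-/

open scoped PeriodPair

noncomputable section

namespace Pool.Agent.Results.MP_8da9ea_nt.GenericToricElliptic

/-- The field of algebraic numbers. -/
abbrev Qbar : IntermediateField ℚ ℂ := algebraicClosure ℚ ℂ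

/-- The Weierstrass zeta function
`ζ(z) = 1/z + ∑_{l ≠ 0} (1/(z - l) + 1/l + z/l²)` (in Lean `1/0 = 0`, so that the term with `l = 0`
of the sum below is `1/z`). -/
def zetaW (L : PeriodPair) (z : ℂ) : ℂ := ∑' l : L.lattice, (1 / (z - l) + 1 / l + z / l ^ 2)

/-- The quasi-period `η(ω) = ζ(z + ω) - ζ(z)` attached to `ω ∈ Ω`, computed at `z = ω₁/2`. -/
def quasi (L : PeriodPair) (ω : ℂ) : ℂ := zetaW L (L.ω₁ / 2 + ω) - zetaW L (L.ω₁ / 2)

/-- The numbers `ω₁, ω₂, η₁, η₂, 2πi`. -/
def periodsOf (L : PeriodPair) : Fin 5 → ℂ :=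
  ![L.ω₁, L.ω₂, quasi L L.ω₁, quasi L L.ω₂, 2 * Real.pi * Complex.I]

/-- `β` belongs to the field `k = End(ℂ/Ω) ⊗ ℚ`: some multiple `m β`, `m ≥ 1`, maps the lattice `Ω`
to itself. -/
def IsMult (L : PeriodPair) (β : ℂ) : Prop :=
  ∃ m : ℕ, 0 < m ∧ ∀ ω ∈ L.lattice, (m : ℂ) * β * ω ∈ L.lattice

/-- The numbers `w_j` are linearly independent over `k`. -/
def IndepMult (L : PeriodPair) {R : ℕ} (w : Fin R → ℂ) : Prop :=
  ∀ β : Fin R → ℂ, (∀ j, IsMult L (β j)) → ∑ j, β j * w j = 0 → ∀ j, β j = 0

/-- Every polynomial relation of total degree at most `D`, with algebraic coefficients, between the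
numbers `θ` and the numbers `x` is an identity in the latter. -/
def OnlyTrivialRelations (D : ℕ) {P σ : Type} (θ : P → ℂ) (x : σ → ℂ) : Prop :=
  ∀ Q : MvPolynomial (P ⊕ σ) Qbar, Q.totalDegree ≤ D →
    MvPolynomial.aeval (Sum.elim θ x) Q = 0 →
    ∀ y : σ → ℂ, MvPolynomial.aeval (Sum.elim θ y) Q = 0

open Pool.Agent.W245.EB

lemma alg_exp {R : ℕ} (a : Fin R → ℂ) (ha : ∀ j, IsAlgebraic ℚ (Complex.exp (a j)))
    (c : Fin R → ℤ) : IsAlgebraic ℚ (Complex.exp (∑ j, (c j : ℂ) * a j)) := by
  rw [← mem_QB, Complex.exp_sum]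
  apply prod_mem
  intro j _
  rw [Complex.exp_int_mul]
  exact zpow_mem (mem_QB.2 (ha j)) _

lemma smul_mem_W {W : Submodule Qbar ℂ} {x : ℂ} (hx : x ∈ W) {b : ℂ} (hb : b ∈ QB) : b * x ∈ W :=
  W.smul_mem (⟨b, hb⟩ : Qbar) hx

lemma ratCast_mem_QB (b : ℚ) : (b : ℂ) ∈ QB := by
  rw [mem_QB]
  have := isAlgebraic_algebraMap (R := ℚ) (A := ℂ) b
  simpa using this

/-- **Main result.** -/
theorem result (L : PeriodPair) (h2 : IsAlgebraic ℚ L.g₂) (h3 : IsAlgebraic ℚ L.g₃)
    (D q s n R : ℕ) (hD : 1 ≤ D) (θ : Fin q → ℂ)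
    (a : Fin s → Fin R → ℂ) (ha : ∀ l j, IsAlgebraic ℚ (Complex.exp (a l j)))
    (ha' : ∀ l, LinearIndependent ℚ (a l))
    (u : Fin n → Fin R → ℂ)
    (hu : ∀ i j, u i j ∈ L.lattice ∨ IsAlgebraic ℚ (℘[L] (u i j)))
    (hind : ∀ i, IndepMult L (u i)) :
    -- complex multiplication
    ((D + 1) ^ (5 + q + s + 2 * n) ≤ R →
      ∀ α : ℂ, α.im ≠ 0 → (∀ ω ∈ L.lattice, α * ω ∈ L.lattice) →
      ∃ F : MvPolynomial ((Fin s ⊕ (Fin n ⊕ Fin n)) × Fin R) Qbar, F ≠ 0 ∧
        F.totalDegree ≤ (D + 1) ^ (5 + q + s + 2 * n) * ((s + 2 * n) * D) ∧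
        ∀ (c : Fin s → Fin R → ℤ) (m m' : Fin n → Fin R → ℤ),
          MvPolynomial.eval (fun v => ((Sum.elim c (Sum.elim m m') v.1 v.2 : ℤ) : Qbar)) F ≠ 0 →
          ∀ (t : Fin s → ℂ) (p : Fin n → ℂ), t = (fun l => ∑ j, (c l j : ℂ) * a l j) →
            p = (fun i => ∑ j, ((m i j : ℂ) + m' i j * α) * u i j) →
            (∀ l, IsAlgebraic ℚ (Complex.exp (t l))) ∧
            (∀ i, p i ∉ L.lattice ∧ IsAlgebraic ℚ (℘[L] (p i))) ∧
            (∀ (b : Fin s → ℚ) (b₀ : ℚ),
              ∑ l, (b l : ℂ) * t l = b₀ * (2 * Real.pi * Complex.I) → b = 0) ∧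
            (∀ β : Fin n → ℂ, (∀ i, IsMult L (β i)) → ∀ b b' : ℚ,
              ∑ i, β i * p i = b * L.ω₁ + b' * L.ω₂ → β = 0) ∧
            OnlyTrivialRelations D (Sum.elim (periodsOf L) θ)
              (Sum.elim t (Sum.elim p (fun i => zetaW L (p i))))) ∧
    -- arbitrary lattices
    ((D + 1) ^ (5 + q + s + n) ≤ R → ∀ σ ρ : Fin n → ℂ, (∀ i, IsAlgebraic ℚ (σ i)) →
      (∀ i, IsAlgebraic ℚ (ρ i)) → (∀ i, σ i ≠ 0 ∨ ρ i ≠ 0) →
      ∃ F : MvPolynomial ((Fin s ⊕ Fin n) × Fin R) Qbar, F ≠ 0 ∧
        F.totalDegree ≤ (D + 1) ^ (5 + q + s + n) * ((s + n) * D) ∧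
        ∀ (c : Fin s → Fin R → ℤ) (m : Fin n → Fin R → ℤ),
          MvPolynomial.eval (fun v => ((Sum.elim c m v.1 v.2 : ℤ) : Qbar)) F ≠ 0 →
          ∀ (t : Fin s → ℂ) (p : Fin n → ℂ), t = (fun l => ∑ j, (c l j : ℂ) * a l j) →
            p = (fun i => ∑ j, (m i j : ℂ) * u i j) →
            (∀ l, IsAlgebraic ℚ (Complex.exp (t l))) ∧
            (∀ i, p i ∉ L.lattice ∧ IsAlgebraic ℚ (℘[L] (p i))) ∧
            OnlyTrivialRelations D (Sum.elim (periodsOf L) θ)
              (Sum.elim t (fun i => σ i * zetaW L (p i) + ρ i * p i))) := by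
  classical
  have hEll : ∀ i, EllFam L (u i) := fun i =>
    ⟨hu i, fun β hβ h0 => funext fun j => hind i β hβ h0 j⟩
  have hEL : ∀ x ∈ EL L, x ∉ L.lattice → IsAlgebraic ℚ (℘[L] x) := fun x hx hx' =>
    hx.resolve_left hx'
  set Θ : Fin 5 ⊕ Fin q → ℂ := Sum.elim (periodsOf L) θ with hΘ
  set W : Submodule Qbar ℂ := monSpan Θ D with hWdef
  have hfin : Module.Finite Qbar W := monSpan_finite Θ D
  have hW : Module.finrank Qbar W ≤ (D + 1) ^ (5 + q) := by
    refine (finrank_monSpan Θ D).trans (le_of_eq ?_)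
    simp
  have h1 : (1 : ℂ) ∈ W := one_mem_monSpan Θ D
  have hw1 : L.ω₁ ∈ W := mem_monSpan Θ hD (Sum.inl 0)
  have hw2 : L.ω₂ ∈ W := mem_monSpan Θ hD (Sum.inl 1)
  have he1 : quasi L L.ω₁ ∈ W := mem_monSpan Θ hD (Sum.inl 2)
  have he2 : quasi L L.ω₂ ∈ W := mem_monSpan Θ hD (Sum.inl 3)
  have hpi : (2 * Real.pi * Complex.I : ℂ) ∈ W := mem_monSpan Θ hD (Sum.inl 4)
  have hΩ : ∀ ω ∈ L.lattice, ω ∈ W := by
    intro ω hω
    obtain ⟨x, y, h⟩ := PeriodPair.mem_lattice.1 hω
    rw [← h]
    exact W.add_mem (smul_mem_W hw1 (intCast_mem QB x)) (smul_mem_W hw2 (intCast_mem QB y))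
  have hη : ∀ ω ∈ L.lattice, H667R3.eta L ω ∈ W := by
    intro ω hω
    obtain ⟨x, y, h⟩ := PeriodPair.mem_lattice.1 hω
    have h4 := H667R3.intCast_mul_mem L L.ω₁_mem_lattice x
    have h5 := H667R3.intCast_mul_mem L L.ω₂_mem_lattice y
    rw [← h, H667R3.eta_add L h4 h5, H667R3.eta_zsmul L L.ω₁_mem_lattice,
      H667R3.eta_zsmul L L.ω₂_mem_lattice]
    exact W.add_mem (smul_mem_W he1 (intCast_mem QB x)) (smul_mem_W he2 (intCast_mem QB y))
  refine ⟨?_, ?_⟩
  · intro hR α hα hmul
    let d : Data (Fin s) (Fin 0) (Fin n) (Fin R) :=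
      { wA := a
        hA := fun l => ⟨ha l, ha' l⟩
        LB := fun b => b.elim0
        g2B := fun b => b.elim0
        g3B := fun b => b.elim0
        uB := fun b => b.elim0
        hB := fun b => b.elim0
        s := fun b => b.elim0
        ρ := fun b => b.elim0
        hs := fun b => b.elim0
        hρ := fun b => b.elim0
        hsρ := fun b => b.elim0
        LC := fun _ => L
        g2C := fun _ => h2
        g3C := fun _ => h3
        uC := u
        hC := hEll
        α := fun _ => α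
        hα := fun _ => hα
        hmul := fun _ => hmul }
    have e0 : Fintype.card (Fin s) + (Fintype.card (Fin 0) + (Fintype.card (Fin n) +
        Fintype.card (Fin n))) = s + 2 * n := by
      simp only [Fintype.card_fin]
      ring
    have e1 : (D + 1) ^ (5 + q) * (D + 1) ^ (s + 2 * n) = (D + 1) ^ (5 + q + s + 2 * n) := by
      rw [← pow_add]
      congr 1
      ring
    obtain ⟨F, hF0, hFd, hF⟩ := d.main ((D + 1) ^ (5 + q)) D W hfin hW (by
      rw [e0, Fintype.card_fin, e1]
      exact hR)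
    rw [e0, e1] at hFd
    let f : Data.Ind (Fin s) (Fin 0) (Fin n) → Fin s ⊕ (Fin n ⊕ Fin n) :=
      Sum.elim Sum.inl (Sum.elim (fun a => a.elim0) Sum.inr)
    have hf : Function.Injective f := by
      rintro (a | a | a) (b | b | b) hab
      all_goals first
        | exact a.elim0
        | exact b.elim0
        | (have h : (Sum.inl a : Fin s ⊕ (Fin n ⊕ Fin n)) = Sum.inl b := hab
           rw [Sum.inl_injective h])
        | (have h : (Sum.inr a : Fin s ⊕ (Fin n ⊕ Fin n)) = Sum.inr b := hab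
           rw [Sum.inr_injective h])
        | (have h : (Sum.inl a : Fin s ⊕ (Fin n ⊕ Fin n)) = Sum.inr b := hab
           exact absurd h Sum.inl_ne_inr)
        | (have h : (Sum.inr a : Fin s ⊕ (Fin n ⊕ Fin n)) = Sum.inl b := hab
           exact absurd h Sum.inr_ne_inl)
    let g : Data.Ind (Fin s) (Fin 0) (Fin n) × Fin R → (Fin s ⊕ (Fin n ⊕ Fin n)) × Fin R :=
      Prod.map f id
    have hg : Function.Injective g := hf.prodMap Function.injective_id
    refine ⟨MvPolynomial.rename g F, ?_, (MvPolynomial.totalDegree_rename_le _ _).trans hFd, ?_⟩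
    · intro h
      apply hF0
      apply MvPolynomial.rename_injective g hg
      rw [h, map_zero]
    intro c m m' hm t p ht hp
    set M : Data.Ind (Fin s) (Fin 0) (Fin n) → Fin R → ℤ :=
      fun i => Sum.elim c (Sum.elim m m') (f i) with hM
    have h4 := hF M (by
      intro h5
      apply hm
      rw [MvPolynomial.eval_rename]
      exact h5)
    have htA : d.tA M = t := by
      rw [ht]
      rfl
    have hpC : d.pC M = p := by
      rw [hp]
      rfl
    have hpE : ∀ i, p i ∈ EL L := by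
      intro i
      rw [← hpC]
      exact d.pC_mem _ i
    have h5 : NoRelTot W D (Sum.elim t (Sum.elim p (fun i => zt L (p i)))) := by
      have h6 := h4.comp (fun i : Fin s ⊕ (Fin n ⊕ Fin n) =>
        (Sum.elim Sum.inl (fun k => Sum.inr (Sum.inr k)) i : Data.Ind (Fin s) (Fin 0) (Fin n)))
        (by
          rintro (a | a) (b | b) hab
          · simp only [Sum.elim_inl] at hab
            rw [Sum.inl_injective hab]
          · simp at hab
          · simp at hab
          · simp only [Sum.elim_inr] at hab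
            rw [Sum.inr_injective (Sum.inr_injective hab)])
      have h7 : (fun i : Fin s ⊕ (Fin n ⊕ Fin n) => d.num M
          (Sum.elim Sum.inl (fun k => Sum.inr (Sum.inr k)) i : Data.Ind (Fin s) (Fin 0) (Fin n))) =
          Sum.elim t (Sum.elim p (fun i => zt L (p i))) := by
        rw [← hpC, ← htA]
        funext i
        rcases i with i | i | i <;> rfl
      rw [← h7]
      exact h6
    have hpn : ∀ i, p i ∉ L.lattice := fun i hi => (h5.ne hD h1 (Sum.inr (Sum.inl i))) (hΩ _ hi)
    refine ⟨?_, fun i => ⟨hpn i, hEL _ (hpE i) (hpn i)⟩, ?_, ?_, ?_⟩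
    · intro l
      rw [ht]
      exact alg_exp (a l) (ha l) (c l)
    · intro b b₀ h0
      let β' : Fin s ⊕ (Fin n ⊕ Fin n) → Qbar := Sum.elim (fun l => ⟨(b l : ℂ), ratCast_mem_QB _⟩) (fun _ => 0)
      have h6 := h5.linear hD h1 β' (smul_mem_W hpi (ratCast_mem_QB b₀)) (by
        rw [Fintype.sum_sum_type]
        simp only [β', Sum.elim_inl, Sum.elim_inr, map_zero, zero_mul, Finset.sum_const_zero, add_zero]
        exact h0)
      funext l
      have h7 := congrFun h6 (Sum.inl l)
      have h8 : (b l : ℂ) = 0 := congrArg (fun x : Qbar => (x : ℂ)) h7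
      exact_mod_cast h8
    · intro β hβ b b' h0
      let β' : Fin s ⊕ (Fin n ⊕ Fin n) → Qbar := Sum.elim (fun _ => 0)
        (Sum.elim (fun i => ⟨β i, mult_mem_Qb (hβ i)⟩) (fun _ => 0))
      have h6 := h5.linear hD h1 β' (W.add_mem (smul_mem_W hw1 (ratCast_mem_QB b))
        (smul_mem_W hw2 (ratCast_mem_QB b'))) (by
        rw [Fintype.sum_sum_type, Fintype.sum_sum_type]
        simp only [β', Sum.elim_inl, Sum.elim_inr, map_zero, zero_mul, Finset.sum_const_zero,
          add_zero, zero_add]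
        exact h0)
      funext i
      have h7 := congrFun h6 (Sum.inr (Sum.inl i))
      exact congrArg (fun x : Qbar => (x : ℂ)) h7
    · have h6 : (fun i => zetaW L (p i)) = fun i => zt L (p i) := by
        funext i
        rw [zt_of_notMem (hpn i)]
        rfl
      rw [h6]
      intro Q hQ h0 y
      exact NoRelTot.param Θ h5 Q hQ h0 y
  · intro hR σ ρ hs hρ hsρ
    let d : Data (Fin s) (Fin n) (Fin 0) (Fin R) :=
      { wA := a
        hA := fun l => ⟨ha l, ha' l⟩
        LB := fun _ => L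
        g2B := fun _ => h2
        g3B := fun _ => h3
        uB := u
        hB := hEll
        s := σ
        ρ := ρ
        hs := hs
        hρ := hρ
        hsρ := hsρ
        LC := fun c => c.elim0
        g2C := fun c => c.elim0
        g3C := fun c => c.elim0
        uC := fun c => c.elim0
        hC := fun c => c.elim0
        α := fun c => c.elim0
        hα := fun c => c.elim0
        hmul := fun c => c.elim0 }
    have e0 : Fintype.card (Fin s) + (Fintype.card (Fin n) + (Fintype.card (Fin 0) +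
        Fintype.card (Fin 0))) = s + n := by
      simp only [Fintype.card_fin]
      ring
    have e1 : (D + 1) ^ (5 + q) * (D + 1) ^ (s + n) = (D + 1) ^ (5 + q + s + n) := by
      rw [← pow_add]
      congr 1
      ring
    obtain ⟨F, hF0, hFd, hF⟩ := d.main ((D + 1) ^ (5 + q)) D W hfin hW (by
      rw [e0, Fintype.card_fin, e1]
      exact hR)
    rw [e0, e1] at hFd
    let f : Data.Ind (Fin s) (Fin n) (Fin 0) → Fin s ⊕ Fin n :=
      Sum.elim Sum.inl (Sum.elim Sum.inr (Sum.elim (fun a => a.elim0) (fun a => a.elim0)))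
    have hf : Function.Injective f := by
      rintro (a | a | a | a) (b | b | b | b) hab
      all_goals first
        | exact a.elim0
        | exact b.elim0
        | (have h : (Sum.inl a : Fin s ⊕ Fin n) = Sum.inl b := hab
           rw [Sum.inl_injective h])
        | (have h : (Sum.inr a : Fin s ⊕ Fin n) = Sum.inr b := hab
           rw [Sum.inr_injective h])
        | (have h : (Sum.inl a : Fin s ⊕ Fin n) = Sum.inr b := hab
           exact absurd h Sum.inl_ne_inr)
        | (have h : (Sum.inr a : Fin s ⊕ Fin n) = Sum.inl b := hab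
           exact absurd h Sum.inr_ne_inl)
    let g : Data.Ind (Fin s) (Fin n) (Fin 0) × Fin R → (Fin s ⊕ Fin n) × Fin R := Prod.map f id
    have hg : Function.Injective g := hf.prodMap Function.injective_id
    refine ⟨MvPolynomial.rename g F, ?_, (MvPolynomial.totalDegree_rename_le _ _).trans hFd, ?_⟩
    · intro h
      apply hF0
      apply MvPolynomial.rename_injective g hg
      rw [h, map_zero]
    intro c m hm t p ht hp
    set M : Data.Ind (Fin s) (Fin n) (Fin 0) → Fin R → ℤ := fun i => Sum.elim c m (f i) with hM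
    have h4 := hF M (by
      intro h5
      apply hm
      rw [MvPolynomial.eval_rename]
      exact h5)
    have htA : d.tA M = t := by
      rw [ht]
      rfl
    have hpB : d.pB M = p := by
      rw [hp]
      rfl
    have hpE : ∀ i, p i ∈ EL L := by
      intro i
      rw [← hpB]
      exact d.pB_mem _ i
    have h5 : NoRelTot W D (Sum.elim t (fun i => σ i * zt L (p i) + ρ i * p i)) := by
      have h6 := h4.comp (fun i : Fin s ⊕ Fin n =>
        (Sum.elim Sum.inl (fun k => Sum.inr (Sum.inl k)) i : Data.Ind (Fin s) (Fin n) (Fin 0)))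
        (by
          rintro (a | a) (b | b) hab
          · simp only [Sum.elim_inl] at hab
            rw [Sum.inl_injective hab]
          · simp at hab
          · simp at hab
          · simp only [Sum.elim_inr] at hab
            rw [Sum.inl_injective (Sum.inr_injective hab)])
      have h7 : (fun i : Fin s ⊕ Fin n => d.num M
          (Sum.elim Sum.inl (fun k => Sum.inr (Sum.inl k)) i : Data.Ind (Fin s) (Fin n) (Fin 0))) =
          Sum.elim t (fun i => σ i * zt L (p i) + ρ i * p i) := by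
        rw [← hpB, ← htA]
        funext i
        rcases i with i | i <;> rfl
      rw [← h7]
      exact h6
    have hpn : ∀ i, p i ∉ L.lattice := by
      intro i hi
      apply h5.ne hD h1 (Sum.inr i)
      show σ i * zt L (p i) + ρ i * p i ∈ W
      rw [zt_of_mem hi]
      exact W.add_mem (smul_mem_W (hη _ hi) (mem_QB.2 (hs i))) (smul_mem_W (hΩ _ hi) (mem_QB.2 (hρ i)))
    refine ⟨?_, fun i => ⟨hpn i, hEL _ (hpE i) (hpn i)⟩, ?_⟩
    · intro l
      rw [ht]
      exact alg_exp (a l) (ha l) (c l)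
    · have h6 : (fun i => σ i * zetaW L (p i) + ρ i * p i) =
          fun i => σ i * zt L (p i) + ρ i * p i := by
        funext i
        rw [zt_of_notMem (hpn i)]
        rfl
      rw [h6]
      intro Q hQ h0 y
      exact NoRelTot.param Θ h5 Q hQ h0 y

end Pool.Agent.Results.MP_8da9ea_nt.GenericToricElliptic
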